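import Pool.Agent.H6.FC.Lem

/-!
# Row ACT of the board cfp_modules: the action on the factors
-/

open FI AMc AMt

namespace Pool.Agent.H32.FC

theorem pf_ACT (PRM : T_PRM) : T_ACT := by
  intro S Y _ _ _ _ hS L hL k φ
  have := hL
  set α : Y →* MulAut (Fin k → S) := (MulAut.congr φ).toMonoidHom.comp MulAut.conjNormal with hα
  have hα1 : ∀ (y : Y) (x : Fin k → S), α y x = φ (MulAut.conjNormal y (φ.symm x)) := fun y x => rfl
  have hαv : ∀ (y : Y) (l l' : L), (l' : Y) = y * l * y⁻¹ → α y (φ l) = φ l' := by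
    intro y l l' h
    rw [hα1, MulEquiv.symm_apply_apply]
    congr 1
    apply Subtype.ext
    rw [MulAut.conjNormal_apply, h]
  choose σ a hσ hu using fun y => PRM S hS (Fin k) (α y)
  have hmul : ∀ g h, σ (g * h) = σ g * σ h ∧ (a (g * h) = fun i => a g (σ h i) * a h i) := by
    intro g h
    have h1 := hu (g * h) (σ g * σ h) (fun i => a g (σ h i) * a h i) (by
      intro x i
      rw [map_mul, MulAut.mul_apply, Equiv.Perm.mul_apply, hσ g, hσ h, MulAut.mul_apply])
    exact ⟨h1.1.symm, h1.2.symm⟩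
  refine ⟨MonoidHom.mk' σ fun g h => (hmul g h).1, a, ?_, ?_, ?_, ?_⟩
  · intro y l l' h i
    rw [← hαv y l l' h]
    exact hσ y (φ l) i
  · intro g h i
    rw [(hmul g h).2]
    rfl
  · intro l
    have h1 := hu (l : Y) 1 (fun i => MulAut.conj (φ l i)) (by
      intro x i
      have h2 : α (l : Y) x = φ l * x * (φ l)⁻¹ := by
        have h3 := hαv (l : Y) (φ.symm x) (l * φ.symm x * l⁻¹) (by push_cast; rfl)
        rw [MulEquiv.apply_symm_apply] at h3
        rw [h3, map_mul, map_mul, map_inv, MulEquiv.apply_symm_apply]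
      rw [h2, MulAut.conj_apply]
      rfl)
    exact ⟨h1.1.symm, fun i => (congrFun h1.2 i).symm⟩
  · intro y h1 h2 l hl
    have h1' : σ y = 1 := h1
    have h3 : ∀ x, α y x = x := by
      intro x
      funext i
      have h4 := hσ y x i
      rw [h1', h2 i] at h4
      exact h4
    have h5 : (MulAut.conjNormal y (⟨l, hl⟩ : L)) = ⟨l, hl⟩ := by
      have h6 := h3 (φ ⟨l, hl⟩)
      rw [hα1, MulEquiv.symm_apply_apply] at h6
      exact φ.injective h6
    have h7 := congrArg Subtype.val h5
    rw [MulAut.conjNormal_apply] at h7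
    exact mul_inv_eq_iff_eq_mul.mp h7

end Pool.Agent.H32.FC
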