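import Pool.Agent.H95.FC.Targets

/-!
Row ALFK of the board fmx_modules (`MP_52e316_nt`): the `L`-function of a Hecke character of
conductor `f` and weight `2 m` as a rapidly convergent series.
-/

set_option autoImplicit false

open MeasureTheory Set Filter NumberField
open Pool.Agent.H31.CN Pool.Agent.H89.FM Pool.Agent.H61.FM Pool.Agent.H89.FC Pool.Agent.H95.FC
open scoped Real nonZeroDivisors Matrix MatrixGroups

namespace Pool.Agent.H32.FC

/-- LFKc -/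
theorem pf_LFKc (hLF2 : Pool.Agent.H95.FC.T_LF2c) (hRSS : Pool.Agent.H95.FC.T_RSS)
    (hDFX : Pool.Agent.H95.FC.T_DFX) (hROT : Pool.Agent.H95.FC.T_ROTx)
    (hSUM : Pool.Agent.H95.FC.T_SUM) (hTWSc : Pool.Agent.H95.FC.T_TWSc)
    (hIOS : Pool.Agent.H95.FC.T_IOS) (hFRA : Pool.Agent.H95.FC.T_FRA)
    (hFLF : Pool.Agent.H95.FC.T_FLF) (hQZV : Pool.Agent.H61.FM.T_QZV)
    (hLC1 : Pool.Agent.H95.FC.T_LC1) : T_LFKc := by
  classical
  intro K _ _ σ D f m ψ F hIQ hψ hF τ s hτ hτr hs hs1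
  obtain ⟨R, rfl⟩ := hRSS K D σ hIQ
  have hf : 1 ≤ f := hψ.pos
  have hDpos : 0 < D := hIQ.pos
  obtain ⟨hun, b, T, W, hDF⟩ := hDFX K D f R hIQ hf
  have h2 := hLF2 K D f m hIQ R b T W ψ F hDF hψ hF 1 squarefree_one s hs hs1
  rw [(hLC1 K R.σ f m ψ hψ).1, one_mul] at h2
  have h3 : ∀ c, HasSum (fun J : (Ideal (𝓞 K))⁰ =>
      if ClassGroup.mk0 J = c⁻¹ then
        ψ J * Kmc m.natAbs τ s (((nm J : ℝ) / (f * Real.sqrt D) : ℝ) : ℂ) else 0)
      ((∑ V ∈ T c, ψ (b c V) * Em m s 1 ⊤ (zx (fl f (R.Q c) V (W c V)))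
        (zy (fl f (R.Q c) V (W c V)))) / un K) := by
    intro c
    have hob := R.ob c
    have hQ1 : 0 < (R.Q c).1 := (R.fd c).1
    have hQd : dsc (R.Q c) = D := (R.fd c).2
    have hD0 : 0 < dsc (R.Q c) := by
      rw [hQd]
      exact_mod_cast hDpos
    have hV : ∀ V ∈ T c, HasSum (fun u : ℤ × ℤ =>
        if u ∈ (⊤ : AddSubgroup (ℤ × ℤ)) ∧ (f : ℤ) ∣ det V u ∧ u ≠ 0 then
        an (zx (R.Q c)) (zy (R.Q c)) u ^ m *
          (fun r : ℝ => Kmc m.natAbs τ s ((r / (f * Real.sqrt D) : ℝ) : ℂ)) (val (R.Q c) u)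
        else 0)
        (an (zx (R.Q c)) (zy (R.Q c)) V ^ m * Em m s 1 ⊤ (zx (fl f (R.Q c) V (W c V)))
          (zy (fl f (R.Q c) V (W c V)))) := by
      intro V hVT
      have hdet := (hDF.lt c).one V hVT
      have hfra := hFRA f (R.Q c) V (W c V) hf hdet hQ1 hD0
      have hflf := hFLF f (R.Q c) V (W c V) hf hdet
      have hfd := hflf.2.2.1 D hDpos (R.fd c)
      have hfl1 : 0 < (fl f (R.Q c) V (W c V)).1 := hfd.1
      have hfl2 : dsc (fl f (R.Q c) V (W c V)) = ((D * f ^ 2 : ℕ) : ℤ) := hfd.2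
      have hfl0 : 0 < dsc (fl f (R.Q c) V (W c V)) := by
        rw [hfl2]
        have : 0 < D * f ^ 2 := by positivity
        exact_mod_cast this
      have hsq : Real.sqrt (dsc (fl f (R.Q c) V (W c V)) : ℝ) = f * Real.sqrt D := by
        rw [hfl2]
        push_cast
        rw [mul_comm, Real.sqrt_mul (by positivity), Real.sqrt_sq (by positivity)]
      have h4 := hROT m τ s 1 ⊤ (zx (fl f (R.Q c) V (W c V))) (zy (fl f (R.Q c) V (W c V)))
        le_rfl (by simp) hτ hτr hfra.2.1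
      have e : (fun v : ℤ × ℤ => if v ∈ (⊤ : AddSubgroup (ℤ × ℤ)) ∧ v ≠ 0 then
          an (zx (fl f (R.Q c) V (W c V))) (zy (fl f (R.Q c) V (W c V))) v ^ m *
            Kmc m.natAbs τ s ((qz (zx (fl f (R.Q c) V (W c V)))
              (zy (fl f (R.Q c) V (W c V))) v / (1 : ℕ) : ℝ) : ℂ) else 0) =
          fun v : ℤ × ℤ => if v ≠ 0 then
            an (zx (fl f (R.Q c) V (W c V))) (zy (fl f (R.Q c) V (W c V))) v ^ m *
            (fun r : ℝ => Kmc m.natAbs τ s ((r / (f * Real.sqrt D) : ℝ) : ℂ))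
              (val (fl f (R.Q c) V (W c V)) v) else 0 := by
        funext v
        by_cases hv : v = 0
        · rw [if_neg (fun h => h.2 hv), if_neg (fun h => h hv)]
        · rw [if_pos ⟨AddSubgroup.mem_top v, hv⟩, if_pos hv, Nat.cast_one, div_one,
            (hQZV _ v hfl1 hfl0).2, hsq]
      rw [e] at h4
      have h5 := hIOS m f (R.Q c) V (W c V)
        (fun r : ℝ => Kmc m.natAbs τ s ((r / (f * Real.sqrt D) : ℝ) : ℂ)) _ hf hdet hQ1 hD0 h4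
      have e2 : (fun u : ℤ × ℤ => if u ∈ (⊤ : AddSubgroup (ℤ × ℤ)) ∧ (f : ℤ) ∣ det V u ∧ u ≠ 0
          then an (zx (R.Q c)) (zy (R.Q c)) u ^ m *
          (fun r : ℝ => Kmc m.natAbs τ s ((r / (f * Real.sqrt D) : ℝ) : ℂ)) (val (R.Q c) u)
          else 0) =
          fun u : ℤ × ℤ => if (f : ℤ) ∣ det V u ∧ u ≠ 0
          then an (zx (R.Q c)) (zy (R.Q c)) u ^ m *
          (fun r : ℝ => Kmc m.natAbs τ s ((r / (f * Real.sqrt D) : ℝ) : ℂ)) (val (R.Q c) u)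
          else 0 := by
        funext u
        by_cases hu : (f : ℤ) ∣ det V u ∧ u ≠ 0
        · rw [if_pos hu, if_pos ⟨AddSubgroup.mem_top u, hu⟩]
        · rw [if_neg hu, if_neg (fun h => hu h.2)]
      rw [e2]
      exact h5
    have h6 := hSUM K R.σ D f m ψ (R.I c) (R.α c) (R.β c) (R.Q c) (b c) (T c) (W c) hDpos
      (R.fd c) hob (hDF.vb c) (hDF.lt c) hψ ⊤
      (fun r : ℝ => Kmc m.natAbs τ s ((r / (f * Real.sqrt D) : ℝ) : ℂ))
      (fun V => an (zx (R.Q c)) (zy (R.Q c)) V ^ m * Em m s 1 ⊤ (zx (fl f (R.Q c) V (W c V)))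
          (zy (fl f (R.Q c) V (W c V)))) hV
    have h7 : (∑ V ∈ T c, ψ (b c V) * an (zx (R.Q c)) (zy (R.Q c)) V ^ (-m) *
        (an (zx (R.Q c)) (zy (R.Q c)) V ^ m * Em m s 1 ⊤ (zx (fl f (R.Q c) V (W c V)))
          (zy (fl f (R.Q c) V (W c V))))) =
        ∑ V ∈ T c, ψ (b c V) * Em m s 1 ⊤ (zx (fl f (R.Q c) V (W c V)))
          (zy (fl f (R.Q c) V (W c V))) := by
      refine Finset.sum_congr rfl fun V hVT => ?_
      have hdet := (hDF.lt c).one V hVT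
      have hfra := hFRA f (R.Q c) V (W c V) hf hdet hQ1 hD0
      have hV0 : V ≠ 0 := by
        intro h
        rw [h] at hdet
        simp [det] at hdet
      have hn := hfra.2.2.1 V hV0
      have hne : an (zx (R.Q c)) (zy (R.Q c)) V ≠ 0 := by
        intro h
        rw [h, norm_zero] at hn
        exact zero_ne_one hn
      rw [zpow_neg, mul_assoc, ← mul_assoc (_⁻¹), inv_mul_cancel₀ (zpow_ne_zero m hne), one_mul]
    rw [h7] at h6
    have hnm : nm (1 : (Ideal (𝓞 K))⁰) = 1 := by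
      unfold nm
      simp
    have hmem : ∀ v : ℤ × ℤ, v ∈ lt K (R.α c) (R.β c)
        (((1 : (Ideal (𝓞 K))⁰) : Ideal (𝓞 K)) * (R.I c : Ideal (𝓞 K))) := by
      intro v
      rw [Submonoid.coe_one, one_mul]
      exact (hob.mem _).mpr ⟨v, rfl⟩
    have e : (fun v : ℤ × ℤ => if v ∈ lt K (R.α c) (R.β c)
        (((1 : (Ideal (𝓞 K))⁰) : Ideal (𝓞 K)) * (R.I c : Ideal (𝓞 K))) ∧ v ≠ 0 then
        ψ (b c v) * (fun r : ℝ => Kmc m.natAbs τ s ((r / (f * Real.sqrt D) : ℝ) : ℂ))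
          ((val (R.Q c) v : ℝ) / nm (1 : (Ideal (𝓞 K))⁰)) else 0) =
        fun v : ℤ × ℤ => if v ∈ (⊤ : AddSubgroup (ℤ × ℤ)) ∧ v ≠ 0 then
        ψ (b c v) * (fun r : ℝ => Kmc m.natAbs τ s ((r / (f * Real.sqrt D) : ℝ) : ℂ))
          (val (R.Q c) v) else 0 := by
      funext v
      by_cases hv : v = 0
      · rw [if_neg (fun h => h.2 hv), if_neg (fun h => h.2 hv)]
      · rw [if_pos ⟨hmem v, hv⟩, if_pos ⟨AddSubgroup.mem_top v, hv⟩, hnm, Nat.cast_one, div_one]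
    have h8 := hTWSc K D R.σ hIQ (R.I c) 1 (R.α c) (R.β c) (R.Q c) (b c) ψ hob (hDF.vb c)
      hψ.mul (fun r : ℝ => Kmc m.natAbs τ s ((r / (f * Real.sqrt D) : ℝ) : ℂ)) _ (by
        rw [e]
        exact h6)
    rw [map_one, mul_one, R.cl] at h8
    have e3 : (fun J : (Ideal (𝓞 K))⁰ => if ClassGroup.mk0 J = c⁻¹ then
        ψ ((1 : (Ideal (𝓞 K))⁰) : Ideal (𝓞 K)) * ψ J *
          (fun r : ℝ => Kmc m.natAbs τ s ((r / (f * Real.sqrt D) : ℝ) : ℂ)) (nm J) else 0) =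
        fun J : (Ideal (𝓞 K))⁰ => if ClassGroup.mk0 J = c⁻¹ then
        ψ J * Kmc m.natAbs τ s (((nm J : ℝ) / (f * Real.sqrt D) : ℝ) : ℂ) else 0 := by
      funext J
      rw [Submonoid.coe_one, Ideal.one_eq_top, hψ.one, one_mul]
    rw [e3] at h8
    exact h8
  have h6 : HasSum (fun J : (Ideal (𝓞 K))⁰ => ∑ c : ClassGroup (𝓞 K),
      (if ClassGroup.mk0 J = c⁻¹ then
        ψ J * Kmc m.natAbs τ s (((nm J : ℝ) / (f * Real.sqrt D) : ℝ) : ℂ) else 0))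
      (∑ c, ((∑ V ∈ T c, ψ (b c V) * Em m s 1 ⊤ (zx (fl f (R.Q c) V (W c V)))
        (zy (fl f (R.Q c) V (W c V)))) / un K)) :=
    hasSum_sum fun c _ => h3 c
  have e1 : (fun J : (Ideal (𝓞 K))⁰ => ∑ c : ClassGroup (𝓞 K),
      (if ClassGroup.mk0 J = c⁻¹ then
        ψ J * Kmc m.natAbs τ s (((nm J : ℝ) / (f * Real.sqrt D) : ℝ) : ℂ) else 0)) =
      fun J : (Ideal (𝓞 K))⁰ =>
        ψ J * Kmc m.natAbs τ s (((nm J : ℝ) / (f * Real.sqrt D) : ℝ) : ℂ) := by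
    funext J
    rw [Finset.sum_eq_single (ClassGroup.mk0 J)⁻¹]
    · rw [inv_inv, if_pos rfl]
    · intro c _ hc
      rw [if_neg]
      intro h
      apply hc
      rw [h, inv_inv]
    · intro h
      exact absurd (Finset.mem_univ _) h
  have e2 : (∑ c, ((∑ V ∈ T c, ψ (b c V) * Em m s 1 ⊤ (zx (fl f (R.Q c) V (W c V)))
        (zy (fl f (R.Q c) V (W c V)))) / un K)) =
      gM m.natAbs s * ((f : ℂ) ^ 2 * D) ^ (s / 2) * F s := by
    rw [h2]
    unfold EE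
    rw [Finset.mul_sum]
    refine Finset.sum_congr rfl fun c _ => ?_
    rw [div_eq_inv_mul]
    refine congrArg _ (Finset.sum_congr rfl fun V _ => ?_)
    rw [(hLC1 K R.σ f m ψ hψ).2.2, Finset.sum_singleton]
  rw [e1, e2] at h6
  exact h6

end Pool.Agent.H32.FC
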