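import Pool.Agent.H6.FC.Lem

/-!
# Row DIX of the board cfp_modules: the theorem of Dixon
-/

open FI AMc AMt

namespace Pool.Agent.H32.FC

theorem c0_ge : 1 ≤ FI.c0 := Real.one_le_rpow (by norm_num) (by norm_num)

theorem pf_DIX (DX2 : T_DX2) : T_DIX := by
  classical
  intro R X _ _ _ _ f hR
  let _ : MulAction R X := MulAction.compHom X f
  have hsm : ∀ (r : R) (x : X), r • x = f r x := fun r x => rfl
  have : Fintype (MulAction.orbitRel.Quotient R X) := Fintype.ofFinite _
  set H : MulAction.orbitRel.Quotient R X → Subgroup R :=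
    fun ω => MulAction.stabilizer R (Quotient.out ω) with hH
  have hle : (⨅ ω, (H ω).normalCore) ≤ f.ker := by
    intro g hg
    rw [MonoidHom.mem_ker]
    ext x
    have h1 := MulAction.selfEquivSigmaOrbits R X
    have h2 : x ∈ MulAction.orbit R (Quotient.out (Quotient.mk (MulAction.orbitRel R X) x)) := by
      have h3 : (MulAction.orbitRel R X).r x
          (Quotient.out (Quotient.mk (MulAction.orbitRel R X) x)) := by
        apply Quotient.exact (s := MulAction.orbitRel R X)
        exact (Quotient.out_eq _).symm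
      exact MulAction.orbitRel_apply.mp h3
    obtain ⟨r, hr⟩ := h2
    have h4 : g ∈ (H (Quotient.mk (MulAction.orbitRel R X) x)).normalCore :=
      (Subgroup.mem_iInf.mp hg) _
    have h5 : r⁻¹ * g * r ∈ H (Quotient.mk (MulAction.orbitRel R X) x) := by
      have h6 := h4 r⁻¹
      rwa [inv_inv] at h6
    rw [hH] at h5
    have h7 := MulAction.mem_stabilizer_iff.mp h5
    change r • _ = x at hr
    rw [mul_smul, mul_smul, hr, inv_smul_eq_iff, hr, hsm] at h7
    exact h7
  have hidx : ∀ ω, (H ω).index = Nat.card (MulAction.orbit R (Quotient.out ω)) := by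
    intro ω
    rw [hH, MulAction.index_stabilizer]
    rfl
  have hsum : Nat.card X = ∑ ω : MulAction.orbitRel.Quotient R X, Nat.card (MulAction.orbit R (Quotient.out ω)) := by
    rw [Nat.card_congr (MulAction.selfEquivSigmaOrbits R X), Nat.card_sigma]
  have hne : Nonempty (MulAction.orbitRel.Quotient R X) := by
    obtain ⟨x⟩ := (inferInstance : Nonempty X)
    exact ⟨Quotient.mk (MulAction.orbitRel R X) x⟩
  have hpos : ∀ ω : MulAction.orbitRel.Quotient R X,
      1 ≤ Nat.card (MulAction.orbit R (Quotient.out ω)) := by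
    intro ω
    have : Nonempty (MulAction.orbit R (Quotient.out ω)) := ⟨⟨_, MulAction.mem_orbit_self _⟩⟩
    exact Nat.card_pos
  have hS : ∑ ω : MulAction.orbitRel.Quotient R X,
      (Nat.card (MulAction.orbit R (Quotient.out ω)) - 1) ≤ Nat.card X - 1 := by
    have h1 : ∑ ω : MulAction.orbitRel.Quotient R X,
        (Nat.card (MulAction.orbit R (Quotient.out ω)) - 1) +
        Fintype.card (MulAction.orbitRel.Quotient R X) = Nat.card X := by
      rw [hsum, Fintype.card_eq_sum_ones, ← Finset.sum_add_distrib]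
      exact Finset.sum_congr rfl fun ω _ => Nat.sub_add_cancel (hpos ω)
    have h2 : 1 ≤ Fintype.card (MulAction.orbitRel.Quotient R X) := Fintype.card_pos
    omega
  have h1 : f.ker.index ≤ ∏ ω, ((H ω).normalCore).index :=
    (Subgroup.index_antitone hle).trans (Subgroup.index_iInf_le _)
  calc (f.ker.index : ℝ) ≤ ((∏ ω, ((H ω).normalCore).index : ℕ) : ℝ) := by exact_mod_cast h1
    _ = ∏ ω, (((H ω).normalCore).index : ℝ) := by push_cast; rfl
    _ ≤ ∏ ω, FI.c0 ^ ((H ω).index - 1) :=
        Finset.prod_le_prod (fun _ _ => Nat.cast_nonneg _) fun ω _ => DX2 R (H ω) hR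
    _ = FI.c0 ^ ∑ ω, ((H ω).index - 1) := Finset.prod_pow_eq_pow_sum _ _ _
    _ ≤ FI.c0 ^ (Nat.card X - 1) := by
        apply pow_le_pow_right₀ c0_ge
        rw [Finset.sum_congr rfl fun ω _ => by rw [hidx ω]]
        exact hS

end Pool.Agent.H32.FC
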