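import Pool.Agent.H6.FC.Lem
import Pool.Agent.H63.FI.GIS

/-!
# Row EIR of the board cfp_modules: the product of a linear character and an inflated character
-/

open scoped Classical ComplexConjugate
open FI AMc AMt

namespace Pool.Agent.H32.FC

theorem pf_EIR : T_EIR := by
  intro Γ S _ _ _ _ Z M p hZM hZc hZp hpm hps ν hν μ hμ hμ1 hμν ε hε
  have : Fintype S := Fintype.ofFinite S
  have hS := FI.Lib.lS1 Γ M μ hμ
  have hp1 : p 1 = 1 := hZp 1 Z.one_mem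
  set p' : M →* S := MonoidHom.mk' (fun x => p x) (fun x y => hpm x x.2 y y.2) with hp'
  have hp's : Function.Surjective p' := by
    intro s
    obtain ⟨x, hx, hxs⟩ := hps s
    exact ⟨⟨x, hx⟩, hxs⟩
  have hεM : (fun g : M => ε (p' g)) ∈ Irr M := ((FI.Lib.lQI M S p' hp's).1 ε).1 hε
  have hεc := ((FI.Lib.lA3 M).1 _ hεM).1
  have h0 : ∀ g, g ∉ M → μ g * ε (p g) = 0 := fun g hg => by rw [hS.1 g hg, zero_mul]
  have hchar : IsChar M (fun n : M => μ n * ε (p n)) :=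
    FI.Lib.lA4.1 M _ _ hS.2.2.2.2.1 hεc
  have habs := Pool.Agent.H63.FI.lin_abs hμ hμ1
  have hsum : ∑ g, (μ g * ε (p g)) * conj (μ g * ε (p g)) = (Nat.card M : ℂ) := by
    rw [Pool.Agent.H63.FI.sum_sub M (fun g => (μ g * ε (p g)) * conj (μ g * ε (p g)))
      (fun g hg => by rw [h0 g hg, zero_mul])]
    have h1 := FI.Lib.lA1 M _ _ hεM hεM
    rw [if_pos rfl] at h1
    rw [← h1]
    refine Finset.sum_congr rfl fun x _ => ?_
    have h2 := habs x x.2
    change μ x * ε (p x) * conj (μ x * ε (p x)) = ε (p x) * conj (ε (p x))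
    rw [map_mul]
    calc μ x * ε (p x) * (conj (μ x) * conj (ε (p x))) =
        (μ x * conj (μ x)) * (ε (p x) * conj (ε (p x))) := by ring
      _ = _ := by rw [h2, one_mul]
  refine ⟨FI.Lib.lS10 Γ M _ h0 hchar hsum, ?_⟩
  have hν0 := (FI.Lib.lS1 Γ Z ν hν).1
  unfold Over
  have h3 : ∑ g : Γ, (μ g * ε (p g)) * (starRingEnd ℂ) (ν g) =
      ε 1 * ∑ g : Γ, ν g * (starRingEnd ℂ) (ν g) := by
    rw [Finset.mul_sum]
    refine Finset.sum_congr rfl fun g _ => ?_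
    by_cases hg : g ∈ Z
    · rw [hμν g hg, hZp g hg]
      ring
    · rw [hν0 g hg, map_zero, mul_zero, mul_zero, mul_zero]
  rw [h3, FI.Lib.lS2 Γ Z ν ν hν hν, if_pos rfl]
  obtain ⟨d, hd, hd1⟩ := ((FI.Lib.lA3 S).1 ε hε).2
  rw [hd1]
  have h4 : ((Nat.card Z : ℕ) : ℂ) ≠ 0 := by exact_mod_cast (Nat.card_pos (α := Z)).ne'
  have h5 : ((d : ℕ) : ℂ) ≠ 0 := by exact_mod_cast hd.ne'
  exact mul_ne_zero h5 h4

end Pool.Agent.H32.FC
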